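import Pool.Agent.Lib.MP_a78abf_an.Defs
import Pool.Agent.Lib.MP_a78abf_an.EP.Main

namespace Pool.Agent.Results.MP_a78abf_an.ExactPlateau

open Pool.Agent.Lib.MP_a78abf_an

theorem result (c : Bool) (a b : ℝ) (hb0 : 0 ≤ b) (hb : b ≤ 1 / 2) (hab : 1 ≤ b - a)
    (hab' : -(a * b) ≤ 1) : ∃ h h₀ : ℝ, HasEntropy c a b h ∧ HasEntropy c (-1) b h₀ ∧
      (h = h₀ ↔ b = 0 ∨ (-1 ≤ a ∧ (a ≤ -1 / (b + 1) ∨ b = 1 / 2))) :=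
  EP.exact_plateau c a b hb0 hb hab hab'

end Pool.Agent.Results.MP_a78abf_an.ExactPlateau
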